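import Pool.Agent.TH990.FU.Touch
import Pool.Agent.Results.MP_b3e76a_pr.AllClusters

/-!
# Contacts of different clusters

The random cluster model with `q = 1` at its self-dual point (critical bond percolation) on `δ ℤ²`
in a rectangle `D = (-A, B) × (0, H)` with Dobrushin boundary conditions: the counterclockwise
boundary arc from `a = t + i H` to `b = 0` is wired, the other one is free. The collection of all
open clusters is a random finite set of compact sets; weak limits of its law exist along a
subsequence of every sequence of meshes.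

In every such limit two different clusters which are not single points may have common points in
`D` (contacts). Almost surely the set of all contacts of all pairs of clusters has Hausdorff
dimension at most `3/4 = 2 - 5/4`. For every fixed set `T` the contacts in `T` have, almost surely,
dimension at most `dimH T - 5/4` (truncated at `0`), and there is almost surely no contact in `T` if
its `5/4`-dimensional Hausdorff measure is zero; for instance there is none on a fixed line or
rectifiable curve.

Definitions (in `Pool.Agent.H934R2.Expl.Model` and `Pool.Agent.H389R2.CL.Model`): `Rect` (the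
domain), `pt`, `Rect.verts`, `Rect.edges` (the discrete domain), `Rect.wired` (boundary condition),
`cluAt` (the vertices of the cluster of a vertex), `csetAt`, `clAt` (the cluster as a compact set:
its vertices and its edges), `coll` (the collection of all clusters), `collLaw` (its law, all
configurations of the edges being equally likely); `contacts` below.

Used from the starting files: the sharp four-arm bound in annuli (`Pool.Agent.W347.DPAA`), the
collection of all clusters (`Pool.Agent.H389R2.CL`), helpers on lattice boxes (`W462.DPL`,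
`W424.OD`).
-/

set_option autoImplicit false

namespace Pool.Agent.Results.MP_b3e76a_pr.ClusterContacts

open MeasureTheory TopologicalSpace Filter Topology H934E Metric
open Pool.Agent.H389R2.CL
open scoped ENNReal NNReal

/-- The points which belong to two different members of the collection, neither of which is a
single point. -/
def contacts (𝒞 : NonemptyCompacts (NonemptyCompacts ℂ)) : Set ℂ :=
  {w | ∃ K ∈ 𝒞, ∃ K' ∈ 𝒞, K ≠ K' ∧ (K : Set ℂ).Nontrivial ∧ (K' : Set ℂ).Nontrivial ∧
    w ∈ K ∧ w ∈ K'}

theorem e54 : ENNReal.ofReal (5 / 4) = 5 / 4 := by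
  rw [ENNReal.ofReal_div_of_pos (by norm_num)]
  norm_num

theorem e34 : (2 : ℝ≥0∞) - 5 / 4 = 3 / 4 := by
  rw [← e54, show (2 : ℝ≥0∞) = ENNReal.ofReal 2 by norm_num,
    ← ENNReal.ofReal_sub _ (by norm_num), show (2 : ℝ) - 5 / 4 = 3 / 4 by norm_num,
    ENNReal.ofReal_div_of_pos (by norm_num)]
  norm_num

theorem lip_null {K : ℝ≥0} {f : ℝ → ℂ} (hf : LipschitzWith K f) : μH[5 / 4] (Set.range f) = 0 := by
  have h1 : dimH (Set.range f) ≤ 1 := by
    have h := hf.dimH_range_le
    rwa [Real.dimH_univ] at h
  have h2 : dimH (Set.range f) < ((5 / 4 : ℝ≥0) : ℝ≥0∞) := by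
    refine lt_of_le_of_lt h1 ?_
    rw [← ENNReal.coe_one, ENNReal.coe_lt_coe]
    norm_num
  have h3 := hausdorffMeasure_of_dimH_lt h2
  have e : (((5 / 4 : ℝ≥0) : ℝ)) = 5 / 4 := by push_cast; ring
  rwa [e] at h3

theorem result (R : Rect) :
    (∀ δ : ℕ → ℝ, (∀ i, 0 < δ i) → Tendsto δ atTop (𝓝 0) →
      ∃ φ : ℕ → ℕ, StrictMono φ ∧ ∃ μ : ProbabilityMeasure (NonemptyCompacts (NonemptyCompacts ℂ)),
        Tendsto (fun i => collLaw R (δ (φ i))) atTop (𝓝 μ)) ∧
    (∀ δ : ℕ → ℝ, (∀ i, 0 < δ i) → Tendsto δ atTop (𝓝 0) →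
      ∀ μ : ProbabilityMeasure (NonemptyCompacts (NonemptyCompacts ℂ)),
        Tendsto (fun i => collLaw R (δ i)) atTop (𝓝 μ) →
        (∀ᵐ 𝒞 ∂(μ : Measure (NonemptyCompacts (NonemptyCompacts ℂ))),
          dimH (contacts 𝒞 ∩ R.D) ≤ 3 / 4) ∧
        (∀ T : Set ℂ, ∀ᵐ 𝒞 ∂(μ : Measure (NonemptyCompacts (NonemptyCompacts ℂ))),
          dimH (contacts 𝒞 ∩ T ∩ R.D) ≤ dimH T - 5 / 4 ∧
          (μH[5 / 4] T = 0 → contacts 𝒞 ∩ T ∩ R.D = ∅)) ∧
        (∀ (K : ℝ≥0) (f : ℝ → ℂ), LipschitzWith K f →
          ∀ᵐ 𝒞 ∂(μ : Measure (NonemptyCompacts (NonemptyCompacts ℂ))),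
            contacts 𝒞 ∩ Set.range f ∩ R.D = ∅)) := by
  refine ⟨AllClusters.result.1 R, fun δ hδ hlim μ hμ => ?_⟩
  have key : ∀ T : Set ℂ, ∀ᵐ 𝒞 ∂(μ : Measure (NonemptyCompacts (NonemptyCompacts ℂ))),
      dimH (contacts 𝒞 ∩ T ∩ R.D) ≤ dimH T - 5 / 4 ∧
      (μH[5 / 4] T = 0 → contacts 𝒞 ∩ T ∩ R.D = ∅) := by
    intro T
    have h := Pool.Agent.TH990.FU.con R hδ hlim hμ T
    rw [e54] at h
    exact h
  refine ⟨?_, key, fun K f hf => ?_⟩
  · filter_upwards [key Set.univ] with 𝒞 h
    have h1 := h.1
    rw [Set.inter_univ, Real.dimH_univ_eq_finrank ℂ, Complex.finrank_real_complex] at h1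
    rw [← e34]
    exact_mod_cast h1
  · filter_upwards [key (Set.range f)] with 𝒞 h
    exact h.2 (lip_null hf)

end Pool.Agent.Results.MP_b3e76a_pr.ClusterContacts
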