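import Pool.Agent.TH990.FU.Col
import Pool.Agent.W424.KI.Fin
import Pool.Agent.Results.MP_b3e76a_pr.AllClusters

/-!
# Frontiers of all clusters

The random cluster model with `q = 1` at its self-dual point (critical bond percolation) on `δ ℤ²`
in a rectangle `D = (-A, B) × (0, H)` with Dobrushin boundary conditions: the counterclockwise
boundary arc from `a = t + i H` to `b = 0` is wired, the other one is free. The collection of all
open clusters is a random finite set of compact sets; weak limits of its law exist along a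
subsequence of every sequence of meshes.

For every such limit, almost surely, the union, over ALL members `K` of the collection which are
not single points and over ALL components of the complement of `K` in the plane, of the boundaries
of these components has Hausdorff dimension at most `4/3`; every such `K` has dimension `91/48`
after removing all these boundaries, in every neighbourhood of each of its points.

Definitions (in `Pool.Agent.H934R2.Expl.Model` and `Pool.Agent.H389R2.CL.Model`): `Rect` (the
domain), `pt`, `Rect.verts`, `Rect.edges` (the discrete domain), `Rect.wired` (boundary condition),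
`cluAt` (the vertices of the cluster of a vertex), `csetAt`, `clAt` (the cluster as a compact set:
its vertices and its edges), `coll` (the collection of all clusters), `collLaw` (its law, all
configurations of the edges being equally likely).

Used from the starting files: the sharp three-arm bound in annuli (`Pool.Agent.W424.KI.Fin`), the
collection of all clusters and the dimension `91/48` (`Pool.Agent.H389R2.CL`,
`Results/MP_b3e76a_pr/AllClusters`), helpers on covering sums (`Pool.Agent.W462.DPL`).
-/

set_option autoImplicit false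

namespace Pool.Agent.Results.MP_b3e76a_pr.ClusterFrontiers

open MeasureTheory TopologicalSpace Filter Topology H934E Metric
open Pool.Agent.H389R2.CD Pool.Agent.H389R2.CL
open scoped ENNReal

/-- The union of the boundaries of all connected components of the complement of `K`. -/
def sides (K : Set ℂ) : Set ℂ := ⋃ x : ℂ, frontier (connectedComponentIn Kᶜ x)

/-- The union of the boundaries of all components of the complements of all members of the
collection which are not single points. -/
def allSides (𝒞 : NonemptyCompacts (NonemptyCompacts ℂ)) : Set ℂ :=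
  ⋃ K ∈ 𝒞, ⋃ _ : (K : Set ℂ).Nontrivial, sides K

theorem e91 : ENNReal.ofReal (91 / 48) = 91 / 48 := by
  rw [ENNReal.ofReal_div_of_pos (by norm_num)]
  norm_num

theorem dim_diff {K S : Set ℂ} (hK : dimH K = 91 / 48) (hS : dimH S ≤ 4 / 3) :
    dimH (K \ S) = 91 / 48 := by
  have hlt : (4/3 : ℝ≥0∞) < 91 / 48 := by
    rw [← e91, ← Pool.Agent.TH990.FU.e43', ENNReal.ofReal_lt_ofReal_iff (by norm_num)]
    norm_num
  refine le_antisymm (hK ▸ dimH_mono Set.sdiff_subset) ?_
  have h1 : K ⊆ (K \ S) ∪ S := by
    intro x hx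
    by_cases h : x ∈ S
    · exact Or.inr h
    · exact Or.inl ⟨hx, h⟩
  have h2 := dimH_mono h1
  rw [hK, dimH_union] at h2
  rcases le_max_iff.1 h2 with h | h
  · exact h
  · exact absurd (h.trans hS) (not_le.2 hlt)

theorem allSides_sub (𝒞 : NonemptyCompacts (NonemptyCompacts ℂ)) :
    allSides 𝒞 ⊆ ⋃ i : ℕ, Pool.Agent.TH990.FU.SK (1 / ((i:ℝ) + 1)) 𝒞 := by
  intro w hw
  simp only [allSides, Set.mem_iUnion] at hw
  obtain ⟨K, hK, hnt, hw⟩ := hw
  obtain ⟨x, hx⟩ := Set.mem_iUnion.1 hw
  obtain ⟨i, hi⟩ := Set.mem_iUnion.1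
    (Pool.Agent.TH990.FU.comp_accK K.isCompact.isClosed hnt x hx)
  exact Set.mem_iUnion.2 ⟨i, K, hK, hi⟩

theorem result (R : Rect) :
    (∀ δ : ℕ → ℝ, (∀ i, 0 < δ i) → Tendsto δ atTop (𝓝 0) →
      ∃ φ : ℕ → ℕ, StrictMono φ ∧ ∃ μ : ProbabilityMeasure (NonemptyCompacts (NonemptyCompacts ℂ)),
        Tendsto (fun i => collLaw R (δ (φ i))) atTop (𝓝 μ)) ∧
    (∀ δ : ℕ → ℝ, (∀ i, 0 < δ i) → Tendsto δ atTop (𝓝 0) →
      ∀ μ : ProbabilityMeasure (NonemptyCompacts (NonemptyCompacts ℂ)),
        Tendsto (fun i => collLaw R (δ i)) atTop (𝓝 μ) →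
        ∀ᵐ (𝒞 : NonemptyCompacts (NonemptyCompacts ℂ))
          ∂(μ : Measure (NonemptyCompacts (NonemptyCompacts ℂ))),
          dimH (allSides 𝒞) ≤ 4 / 3 ∧
          ∀ K ∈ 𝒞, (K : Set ℂ).Nontrivial →
            dimH (sides K) ≤ 4 / 3 ∧
            dimH ((K : Set ℂ) \ allSides 𝒞) = 91 / 48 ∧
            ∀ w ∈ K, ∀ ε : ℝ, 0 < ε →
              dimH (((K : Set ℂ) ∩ ball w ε) \ allSides 𝒞) = 91 / 48) := by
  refine ⟨AllClusters.result.1 R, fun δ hδ hlim μ hμ => ?_⟩
  filter_upwards [AllClusters.result.2 R δ hδ hlim μ hμ,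
    Pool.Agent.TH990.FU.col Pool.Agent.W424.KI.u3 R hδ hlim hμ] with 𝒞 h1 h2
  have h3 : dimH (allSides 𝒞) ≤ 4 / 3 := (dimH_mono (allSides_sub 𝒞)).trans h2
  refine ⟨h3, fun K hK hnt => ⟨(dimH_mono ?_).trans h3, dim_diff (h1.2 K hK hnt).1 h3,
    fun w hw ε hε => dim_diff ((h1.2 K hK hnt).2 w hw ε hε) h3⟩⟩
  intro w hw
  simp only [allSides, Set.mem_iUnion]
  exact ⟨K, hK, hnt, hw⟩

end Pool.Agent.Results.MP_b3e76a_pr.ClusterFrontiers
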