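import Pool.Agent.TH966.CF.Open
import Pool.Agent.H160R2.SA.Arm

/-!
# The collection of all clusters and fixed sets: dimension

The random cluster model with `q = 1` at its self-dual point (critical bond percolation) on `δ ℤ²`
in a rectangle `D = (-A, B) × (0, H)` with Dobrushin boundary conditions: the counterclockwise
boundary arc from `a = t + i H` to `b = 0` is wired, the other one is free.

The collection of all open clusters is a random finite set of compact sets. For every weak limit
`μ`, as `δ → 0`, of its law (they exist along a subsequence of every sequence of meshes):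

for every fixed σ-compact subset `S` of `D`, almost surely, for all open sets `O`, the supremum
over the members `K` which are not single points of the dimension of `K ∩ S ∩ O` is exactly
`dim (S ∩ O) - 5/48` (truncated at `0`).

Definitions (in `Pool.Agent.H934R2.Expl.Model` and `Pool.Agent.H389R2.CL.Model`): `Rect` (the
domain), `Rect.D`, `pt`, `Rect.verts`, `Rect.edges` (the discrete domain), `Rect.wired` (boundary
condition), `cluAt`, `csetAt`, `clAt` (the cluster as a compact set: its vertices and its edges),
`coll` (the collection of all clusters), `collLaw` (its law, all configurations of the edges being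
equally likely).
-/

namespace Pool.Agent.Results.MP_b3e76a_pr.FixedSetsClusters

open MeasureTheory TopologicalSpace Filter Topology H934E Metric
open Pool.Agent.H389R2.CD Pool.Agent.H389R2.CL Pool.Agent.TH966
open scoped ENNReal

theorem result :
    (∀ (R : Rect) (δ : ℕ → ℝ), (∀ i, 0 < δ i) → Tendsto δ atTop (𝓝 0) →
      ∃ φ : ℕ → ℕ, StrictMono φ ∧ ∃ μ : ProbabilityMeasure (NonemptyCompacts (NonemptyCompacts ℂ)),
        Tendsto (fun i => collLaw R (δ (φ i))) atTop (𝓝 μ)) ∧
    (∀ (R : Rect) (δ : ℕ → ℝ), (∀ i, 0 < δ i) → Tendsto δ atTop (𝓝 0) →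
      ∀ μ : ProbabilityMeasure (NonemptyCompacts (NonemptyCompacts ℂ)),
        Tendsto (fun i => collLaw R (δ i)) atTop (𝓝 μ) →
        ∀ S : Set ℂ, IsSigmaCompact S → S ⊆ R.D →
          ∀ᵐ (𝒞 : NonemptyCompacts (NonemptyCompacts ℂ))
          ∂(μ : Measure (NonemptyCompacts (NonemptyCompacts ℂ))), ∀ O : Set ℂ, IsOpen O →
            ⨆ K ∈ {K : NonemptyCompacts ℂ | K ∈ 𝒞 ∧ (K : Set ℂ).Nontrivial},
              dimH ((K : Set ℂ) ∩ (S ∩ O)) = dimH (S ∩ O) - 5 / 48) := by
  have hAr : ArS := Pool.Agent.H160R2.SA.arSharp
  have e : ENNReal.ofReal (5 / 48) = 5 / 48 := by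
    rw [ENNReal.ofReal_div_of_pos (by norm_num)]
    norm_num
  refine ⟨fun R δ hδ hlim => coll_precompact R hδ hlim, ?_⟩
  intro R δ hδ hlim μ hμ
  intro S hS hSD
  filter_upwards [CF.dim_open hAr R hδ hlim hμ hS hSD] with 𝒞 h𝒞 O hO
  rw [h𝒞 O hO, e]

end Pool.Agent.Results.MP_b3e76a_pr.FixedSetsClusters
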