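import Pool.Agent.TH966.CF.Fin
import Pool.Agent.H160R2.SA.Arm

/-!
# Which fixed sets are met by the clusters

The random cluster model with `q = 1` at its self-dual point (critical bond percolation) on `δ ℤ²`
in a rectangle `D = (-A, B) × (0, H)` with Dobrushin boundary conditions: the counterclockwise
boundary arc from `a = t + i H` to `b = 0` is wired, the other one is free.

The collection of all open clusters is a random finite set of compact sets. For every weak limit
`μ`, as `δ → 0`, of its law (they exist along a subsequence of every sequence of meshes):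

* a fixed subset `S` of `D` of `5/48`-dimensional Hausdorff measure zero is almost surely not met
  by any member which is not a single point;
* a fixed compact subset `S` of `D` which carries a probability measure of finite `5/48`-energy
  (a set of positive `5/48`-capacity) is almost surely met by a member which is not a single point.

Definitions (in `Pool.Agent.H934R2.Expl.Model` and `Pool.Agent.H389R2.CL.Model`): `Rect` (the
domain), `Rect.D`, `pt`, `Rect.verts`, `Rect.edges` (the discrete domain), `Rect.wired` (boundary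
condition), `cluAt`, `csetAt`, `clAt` (the cluster as a compact set: its vertices and its edges),
`coll` (the collection of all clusters), `collLaw` (its law, all configurations of the edges being
equally likely).
-/

namespace Pool.Agent.Results.MP_b3e76a_pr.FixedSetsHitting

open MeasureTheory TopologicalSpace Filter Topology H934E Metric
open Pool.Agent.H389R2.CD Pool.Agent.H389R2.CL Pool.Agent.TH966
open scoped ENNReal

theorem result :
    (∀ (R : Rect) (δ : ℕ → ℝ), (∀ i, 0 < δ i) → Tendsto δ atTop (𝓝 0) →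
      ∃ φ : ℕ → ℕ, StrictMono φ ∧ ∃ μ : ProbabilityMeasure (NonemptyCompacts (NonemptyCompacts ℂ)),
        Tendsto (fun i => collLaw R (δ (φ i))) atTop (𝓝 μ)) ∧
    (∀ (R : Rect) (δ : ℕ → ℝ), (∀ i, 0 < δ i) → Tendsto δ atTop (𝓝 0) →
      ∀ μ : ProbabilityMeasure (NonemptyCompacts (NonemptyCompacts ℂ)),
        Tendsto (fun i => collLaw R (δ i)) atTop (𝓝 μ) →
        (∀ S : Set ℂ, S ⊆ R.D → μH[(5 / 48 : ℝ)] S = 0 →
          ∀ᵐ (𝒞 : NonemptyCompacts (NonemptyCompacts ℂ))
          ∂(μ : Measure (NonemptyCompacts (NonemptyCompacts ℂ))),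
            ∀ K ∈ 𝒞, (K : Set ℂ).Nontrivial → (K : Set ℂ) ∩ S = ∅) ∧
        (∀ S : Set ℂ, IsCompact S → S ⊆ R.D → ∀ ν : Measure ℂ, IsProbabilityMeasure ν →
          ν Sᶜ = 0 → ∫⁻ x, ∫⁻ y, (edist x y) ^ (-(5 / 48) : ℝ) ∂ν ∂ν < ∞ →
          ∀ᵐ (𝒞 : NonemptyCompacts (NonemptyCompacts ℂ))
          ∂(μ : Measure (NonemptyCompacts (NonemptyCompacts ℂ))),
            ∃ K ∈ 𝒞, (K : Set ℂ).Nontrivial ∧ ((K : Set ℂ) ∩ S).Nonempty)) := by
  have hAr : ArS := Pool.Agent.H160R2.SA.arSharp
  refine ⟨fun R δ hδ hlim => coll_precompact R hδ hlim, ?_⟩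
  intro R δ hδ hlim μ hμ
  refine ⟨?_, ?_⟩
  · intro S hSD h0
    filter_upwards [CF.all_upper hAr R hδ hlim hμ hSD] with 𝒞 h𝒞 K hK hnt
    exact (h𝒞 K hK hnt).2 h0
  · intro S hS hSD ν hν hν0 he
    exact CF.hit_ae hAr R hδ hlim hμ hS hSD hν0 he.ne

end Pool.Agent.Results.MP_b3e76a_pr.FixedSetsHitting
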